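import Pool.Agent.Helper18.SU.Goals

/-! Packet LST: adding one level. -/

set_option autoImplicit false

namespace Pool.Agent.Helper77.SU

open Pool.Agent.Helper18.SU

theorem LST (h1 : CHA_stmt) (h2 : ONE_stmt) : LST_stmt := by
  classical
  intro W V _ _ _ A hT r par dep hR K hrK hKpar lev sgn col hlev hcol j P M f hPP hPM hf hM
  obtain ⟨hl0, hl1, hl2⟩ := hlev
  have hlevOK : LevOK par K lev := ⟨hl0, hl1, hl2⟩
  obtain ⟨hR0, hRr, hRd⟩ := hR
  have hRooted : Rooted r par dep := ⟨hR0, hRr, hRd⟩
  set U : Finset W := upTo lev j with hU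
  set U' : Finset W := upTo lev (j + 1) with hU'
  have memU : ∀ v, v ∈ U ↔ lev v ≤ j := by
    intro v; simp [hU, upTo]
  have memU' : ∀ v, v ∈ U' ↔ lev v ≤ j + 1 := by
    intro v; simp [hU', upTo]
  -- the level of the parent
  have levpar : ∀ v, lev (par v) ≤ lev v := by
    intro v
    by_cases hv : v ∈ K
    · have e1 := (hl0 _).2 (hKpar v hv)
      omega
    · rcases hl1 v hv with h | h <;> omega
  set X : Finset V := M ∪ P true ∪ P false with hX
  have hPX : ∀ d, P d ⊆ X := by
    intro d
    cases d
    · exact Finset.subset_union_right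
    · exact Finset.subset_union_right.trans Finset.subset_union_left
  have hMX : M ⊆ X := Finset.subset_union_left.trans Finset.subset_union_left
  let Good : Finset W → Prop := fun S =>
    U ⊆ S ∧ S ⊆ U' ∧ (∀ v ∈ S, par v ∈ S) ∧
    (∀ u v, v ∈ S → lev v = j + 1 → u ∉ K → par u = v → lev u = j + 1 → u ∈ S) ∧
    ∃ f' : W → V, (∀ v ∈ U, f' v = f v) ∧ (∀ v ∈ S, v ∉ U → f' v ∈ P (col v)) ∧
      Emb A r par sgn S X f'
  have good0 : Good U := by
    refine ⟨Finset.Subset.refl _, ?_, ?_, ?_, f, fun _ _ => rfl, fun v hv hv' => absurd hv hv', ?_⟩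
    · intro v hv
      rw [memU] at hv
      rw [memU']
      omega
    · intro v hv
      rw [memU] at hv ⊢
      exact (levpar v).trans hv
    · intro u v hv hv'
      rw [memU] at hv
      omega
    · exact ⟨fun v hv => hMX (hf.1 v hv), hf.2.1, hf.2.2⟩
  obtain ⟨S, hS, hmax⟩ := Finset.exists_max_image
    ((Finset.univ : Finset (Finset W)).filter Good) Finset.card ⟨U, by simp [good0]⟩
  rw [Finset.mem_filter] at hS
  obtain ⟨-, hUS, hSU', hSpar, hSch, f', hf'U, hf'P, hf'E⟩ := hS
  by_cases hSe : S = U'
  · exact ⟨f', by rw [← hSe]; exact hf'E⟩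
  exfalso
  have hne : (U' \ S).Nonempty := by
    rw [Finset.nonempty_iff_ne_empty]
    intro h
    rw [Finset.sdiff_eq_empty_iff_subset] at h
    exact hSe (Finset.Subset.antisymm hSU' h)
  obtain ⟨t, ht, htmin⟩ := Finset.exists_min_image (U' \ S) dep hne
  rw [Finset.mem_sdiff] at ht
  obtain ⟨htU', htS⟩ := ht
  have htl : lev t = j + 1 := by
    have e1 : ¬ lev t ≤ j := fun h => htS (hUS ((memU t).2 h))
    have e2 := (memU' t).1 htU'
    omega
  have htK : t ∉ K := by
    intro h
    have := (hl0 t).2 h
    omega
  have htr : t ≠ r := fun h => htK (h ▸ hrK)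
  have hptS : par t ∈ S := by
    by_contra h
    have e1 : par t ∈ U' \ S := by
      rw [Finset.mem_sdiff, memU']
      exact ⟨by have := levpar t; omega, h⟩
    have e2 := htmin _ e1
    have e3 := hRd t htr
    omega
  have hptl : lev (par t) ≠ j + 1 := by
    intro h
    exact htS (hSch t (par t) hptS h htK rfl htl)
  have hptU : par t ∈ U := by
    rw [memU]
    have := levpar t
    omega
  have hcolt : col t = sgn t := (hcol t htK).1 (by omega)
  obtain ⟨b, c, hb, hc0, hcpar, hclev, hcinj, hccl⟩ :=
    h1 W r par dep hRooted K hrK hKpar lev hlevOK t htK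
  have hcS : ∀ i < b, c i ∉ S := by
    intro i
    induction i with
    | zero => intro _; rw [hc0]; exact htS
    | succ i ih =>
      intro hi h
      apply ih (by omega)
      rw [← hcpar i hi]
      exact hSpar _ h
  have hccol : ∀ i < b, col (c i) = col t := by
    intro i
    induction i with
    | zero => intro _; rw [hc0]
    | succ i ih =>
      intro hi
      have e1 := hclev (i + 1) hi
      have e2 := hclev i (by omega)
      have e3 := hcpar i hi
      have e4 := (hcol (c (i + 1)) e1.2).2 (by rw [e3, e1.1, e2.1])
      rw [e4, e3]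
      exact ih (by omega)
  set d : Bool := col t with hd
  set x : V := f' (par t) with hx
  have hxM : x ∈ M := by
    rw [hx, hf'U _ hptU]
    exact hf.1 _ hptU
  set Y0 : Finset V := (P d).filter (fun y => Arc A d x y) with hY0
  have hY0c : need (cnt lev col (j + 1) d) ≤ Y0.card := hM x hxM d
  set Cd : Finset W := Finset.univ.filter (fun v => lev v = j + 1 ∧ col v = d) with hCd
  set Sd : Finset W := S.filter (fun v => lev v = j + 1 ∧ col v = d) with hSd
  have hcard1 : Sd.card + b ≤ cnt lev col (j + 1) d := by
    have e1 : ((Finset.range b).image c).card = b := by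
      rw [Finset.card_image_of_injOn, Finset.card_range]
      intro i hi i' hi' h
      rw [Finset.coe_range, Set.mem_Iio] at hi hi'
      exact hcinj i hi i' hi' h
    have e2 : Disjoint Sd ((Finset.range b).image c) := by
      rw [Finset.disjoint_left]
      intro v hv hv'
      obtain ⟨i, hi, rfl⟩ := Finset.mem_image.1 hv'
      exact hcS i (Finset.mem_range.1 hi) (Finset.mem_filter.1 hv).1
    have e3 : Sd ∪ (Finset.range b).image c ⊆ Cd := by
      intro v hv
      rw [hCd, Finset.mem_filter]
      refine ⟨Finset.mem_univ _, ?_⟩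
      rcases Finset.mem_union.1 hv with hv | hv
      · exact (Finset.mem_filter.1 hv).2
      · obtain ⟨i, hi, rfl⟩ := Finset.mem_image.1 hv
        have hi' := Finset.mem_range.1 hi
        exact ⟨by rw [(hclev i hi').1, htl], hccol i hi'⟩
    have e4 := Finset.card_le_card e3
    rw [Finset.card_union_of_disjoint e2, e1] at e4
    exact e4
  have hneed : need (cnt lev col (j + 1) d) = cnt lev col (j + 1) d + 1 := by
    unfold need
    rw [if_neg (by omega)]
  set Y : Finset V := Y0 \ S.image f' with hY
  have hYP : Y ⊆ P d := Finset.sdiff_subset.trans (Finset.filter_subset _ _)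
  have hYcard : b + 1 ≤ Y.card := by
    have e1 : Y0 \ Sd.image f' ⊆ Y := by
      intro y hy
      rw [Finset.mem_sdiff] at hy
      rw [hY, Finset.mem_sdiff]
      refine ⟨hy.1, fun h => hy.2 ?_⟩
      obtain ⟨v, hv, rfl⟩ := Finset.mem_image.1 h
      have hyP : f' v ∈ P d := (Finset.mem_filter.1 hy.1).1
      have hvU : v ∉ U := by
        intro hvU
        have e2 : f' v ∈ M := by
          rw [hf'U v hvU]
          exact hf.1 v hvU
        exact Finset.disjoint_left.1 (hPM d) hyP e2
      have hvl : lev v = j + 1 := by
        have e2 := (memU' v).1 (hSU' hv)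
        rw [memU] at hvU
        omega
      have hvP := hf'P v hv hvU
      have hvc : col v = d := by
        by_contra hne
        cases hd' : d
        · rw [hd'] at hyP hne
          have e3 : col v = true := by simpa using hne
          rw [e3] at hvP
          exact Finset.disjoint_left.1 hPP hvP hyP
        · rw [hd'] at hyP hne
          have e3 : col v = false := by simpa using hne
          rw [e3] at hvP
          exact Finset.disjoint_left.1 hPP hyP hvP
      exact Finset.mem_image_of_mem _ (Finset.mem_filter.2 ⟨hv, hvl, hvc⟩)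
    have e2 := Finset.card_le_card e1
    have e3 := Finset.le_card_sdiff (Sd.image f') Y0
    have e4 : (Sd.image f').card ≤ Sd.card := Finset.card_image_le
    omega
  have hcptS : par (c 0) ∈ S := by rw [hc0]; exact hptS
  obtain ⟨f'', hf''S, hf''c, hf''E⟩ := h2 W V A hT r par sgn S X Y f' hf'E hSpar b c hb hcS hcptS
    hcpar hcinj hYcard
    (by
      intro v hv h
      rw [hY, Finset.mem_sdiff] at h
      exact h.2 (Finset.mem_image_of_mem _ hv))
    (by
      intro y hy
      rw [hc0, ← hcolt]
      rw [hY, Finset.mem_sdiff, hY0, Finset.mem_filter] at hy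
      exact hy.1.2)
  set S' : Finset W := S ∪ (Finset.range b).image c with hS'
  have good' : Good S' := by
    refine ⟨hUS.trans Finset.subset_union_left, ?_, ?_, ?_, f'', ?_, ?_, ?_⟩
    · intro v hv
      rcases Finset.mem_union.1 hv with hv | hv
      · exact hSU' hv
      · obtain ⟨i, hi, rfl⟩ := Finset.mem_image.1 hv
        rw [memU', (hclev i (Finset.mem_range.1 hi)).1, htl]
    · intro v hv
      rcases Finset.mem_union.1 hv with hv | hv
      · exact Finset.mem_union_left _ (hSpar v hv)
      · obtain ⟨i, hi, rfl⟩ := Finset.mem_image.1 hv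
        have hi' := Finset.mem_range.1 hi
        cases i with
        | zero => exact Finset.mem_union_left _ hcptS
        | succ i =>
          rw [hcpar i hi']
          exact Finset.mem_union_right _ (Finset.mem_image_of_mem _ (Finset.mem_range.2 (by omega)))
    · intro u v hv hvl huK hup hul
      rcases Finset.mem_union.1 hv with hv | hv
      · exact Finset.mem_union_left _ (hSch u v hv hvl huK hup hul)
      · obtain ⟨i, hi, rfl⟩ := Finset.mem_image.1 hv
        obtain ⟨i', hi', rfl⟩ := hccl i (Finset.mem_range.1 hi) u huK hup (by rw [hul, htl])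
        exact Finset.mem_union_right _ (Finset.mem_image_of_mem _ (Finset.mem_range.2 hi'))
    · intro v hv
      rw [hf''S v (hUS hv)]
      exact hf'U v hv
    · intro v hv hvU
      rcases Finset.mem_union.1 hv with hv | hv
      · rw [hf''S v hv]
        exact hf'P v hv hvU
      · obtain ⟨i, hi, rfl⟩ := Finset.mem_image.1 hv
        have hi' := Finset.mem_range.1 hi
        rw [hccol i hi']
        exact hYP (hf''c i hi')
    · have e1 : X ∪ Y = X := Finset.union_eq_left.2 (hYP.trans (hPX d))
      rw [e1] at hf''E
      exact hf''E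
  have hlt : S.card < S'.card := by
    apply Finset.card_lt_card
    rw [Finset.ssubset_iff_of_subset Finset.subset_union_left]
    refine ⟨c 0, ?_, hcS 0 (by omega)⟩
    exact Finset.mem_union_right _ (Finset.mem_image_of_mem _ (Finset.mem_range.2 (by omega)))
  have hle := hmax S' (by
    rw [Finset.mem_filter]
    exact ⟨Finset.mem_univ _, good'⟩)
  omega

end Pool.Agent.Helper77.SU
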