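import Pool.Agent.Helper18.SU.Goals2

/-!
# Oriented trees in tournaments: splitting the core over two disjoint sets
-/

set_option autoImplicit false

namespace Pool.Agent.Helper77.SU

open Pool.Agent.Helper18.SU

theorem Emb_mono {W V : Type} {A : V → V → Prop} {r : W} {par : W → W} {sgn : W → Bool}
    {S : Finset W} {X Y : Finset V} {f : W → V} (h : Emb A r par sgn S X f) (hXY : X ⊆ Y) :
    Emb A r par sgn S Y f :=
  ⟨fun v hv => hXY (h.1 v hv), h.2.1, h.2.2⟩

theorem FLX (h1 : SUBT_stmt) : FLX_stmt := by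
  intro W V _ _ _ A hA r par dep hR sgn S w hw X B hBX hB
  by_contra hc
  push Not at hc
  obtain ⟨f, hf⟩ := h1 W V A hA r par dep hR sgn S B hc
  exact hB (f w) (hf.1 w hw) ⟨f, Emb_mono hf hBX, rfl⟩

theorem half {W V : Type} [Fintype W] [DecidableEq W] [DecidableEq V] (h1 : SUBT_stmt)
    (h2 : FLX_stmt) (h3 : DSC_stmt)
    {A : V → V → Prop} (hA : Tour A) {r : W} {par : W → W} {dep : W → ℕ}
    (hR : Rooted r par dep) (sgn : W → Bool) {K : Finset W} (hK : ∀ v ∈ K, par v ∈ K)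
    {v : W} (hv : v ∈ K) (σ : Bool) {C : Finset W}
    (hC : ∀ c ∈ C, c ∈ K ∧ c ≠ r ∧ par c = v ∧ sgn c = σ) {X1 X2 : Finset V}
    (hX : Disjoint X1 X2) (hX1 : 4 * (3 * K.card + C0) ≤ X1.card)
    (hX2 : 4 * (3 * K.card + C0) ≤ X2.card)
    (hsum : X1.card * X2.card ≤ 2 * ∑ x ∈ X1, (nb A σ X2 x).card) :
    ∃ f₀ : W → V, Emb A r par sgn K (X1 ∪ X2) f₀ ∧
      (∀ w ∈ cut par K C, f₀ w ∈ X2) ∧ (∀ w ∈ K, w ∉ cut par K C → f₀ w ∈ X1) := by
  classical
  obtain ⟨d1, d2, d3, d4, -, -, -⟩ := h3 W r par dep hR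
  have hcut : ∀ w, w ∈ cut par K C ↔ w ∈ K ∧ ∃ c ∈ C, w ∈ dsc par c := by
    intro w
    simp [cut]
  have hv2 : v ∉ cut par K C := by
    intro h
    obtain ⟨-, c, hc, hvc⟩ := (hcut v).mp h
    obtain ⟨-, hcr, hpc, -⟩ := hC c hc
    have h4 := hR.2.2 c hcr
    rw [hpc] at h4
    have h5 : v ≠ c := by
      rintro rfl
      omega
    have h6 := d4 c v hvc h5
    omega
  have hpar1 : ∀ w ∈ K, w ∉ cut par K C → par w ∉ cut par K C := by
    intro w hw hw2 h
    obtain ⟨-, c, hc, hwc⟩ := (hcut _).mp h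
    exact hw2 ((hcut w).mpr ⟨hw, c, hc, d3 c w hwc⟩)
  have hpar2 : ∀ w ∈ cut par K C, par w ∉ cut par K C → par w = v ∧ sgn w = σ := by
    intro w hw hpw
    obtain ⟨hwK, c, hc, hwc⟩ := (hcut w).mp hw
    by_cases hwe : w = c
    · obtain ⟨-, -, h5, h6⟩ := hC c hc
      rw [hwe]
      exact ⟨h5, h6⟩
    · exact absurd ((hcut _).mpr ⟨hK w hwK, c, hc, d2 c w hwc hwe⟩) hpw
  have hcutK : cut par K C ⊆ K := fun w hw => ((hcut w).mp hw).1
  obtain ⟨c0, hc0⟩ : ∃ c0 : ℕ, c0 = 3 * K.card + C0 := ⟨_, rfl⟩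
  have hc0pos : 0 < c0 := by rw [hc0]; unfold C0; omega
  rw [← hc0] at hX1 hX2
  -- a good vertex
  have key : ∃ x ∈ X1, c0 ≤ (nb A σ X2 x).card ∧
      ∃ f : W → V, Emb A r par sgn (K \ cut par K C) X1 f ∧ f v = x := by
    by_contra hcon
    push Not at hcon
    let B : Finset V := X1.filter (fun x => ¬ ∃ f : W → V, Emb A r par sgn (K \ cut par K C) X1 f ∧ f v = x)
    have hB : B.card < c0 := by
      have h5 := h2 W V A hA r par dep hR sgn (K \ cut par K C) v
        (Finset.mem_sdiff.mpr ⟨hv, hv2⟩) X1 B (Finset.filter_subset _ _)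
        (fun x hx => (Finset.mem_filter.mp hx).2)
      have h6 : (K \ cut par K C).card ≤ K.card := Finset.card_le_card Finset.sdiff_subset
      omega
    have hle : ∀ x ∈ X1, (nb A σ X2 x).card ≤ (c0 - 1) + if x ∈ B then X2.card else 0 := by
      intro x hx
      by_cases hxB : x ∈ B
      · rw [if_pos hxB]
        have h5 : (nb A σ X2 x).card ≤ X2.card := Finset.card_le_card (Finset.filter_subset _ _)
        omega
      · rw [if_neg hxB]
        have h5 : ∃ f : W → V, Emb A r par sgn (K \ cut par K C) X1 f ∧ f v = x := by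
          by_contra h6
          exact hxB (Finset.mem_filter.mpr ⟨hx, h6⟩)
        obtain ⟨f, hf, hfx⟩ := h5
        by_contra h6
        exact hcon x hx (by omega) f hf hfx
    have h5 : ∑ x ∈ X1, (nb A σ X2 x).card ≤ X1.card * (c0 - 1) + B.card * X2.card := by
      refine (Finset.sum_le_sum hle).trans (le_of_eq ?_)
      rw [Finset.sum_add_distrib, Finset.sum_const, smul_eq_mul, ← Finset.sum_filter,
        Finset.sum_const, smul_eq_mul]
      congr 3
      ext x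
      simp only [Finset.mem_filter]
      exact ⟨fun h => h.2, fun h => ⟨(Finset.mem_filter.mp h).1, h⟩⟩
    obtain ⟨k, rfl⟩ : ∃ k, c0 = k + 1 := ⟨c0 - 1, by omega⟩
    rw [Nat.add_sub_cancel] at h5
    have h6 : B.card * X2.card ≤ k * X2.card := Nat.mul_le_mul_right _ (by omega)
    have h7 : 4 * (k + 1) * X2.card ≤ X1.card * X2.card := Nat.mul_le_mul_right _ hX1
    have h8 : X1.card * (4 * (k + 1)) ≤ X1.card * X2.card := Nat.mul_le_mul_left _ hX2
    nlinarith
  obtain ⟨x, hx, hxn, f1, hf1, hf1v⟩ := key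
  obtain ⟨f2, hf2⟩ := h1 W V A hA r par dep hR sgn (cut par K C) (nb A σ X2 x) (by
    have := Finset.card_le_card hcutK
    omega)
  have hf2X : ∀ w ∈ cut par K C, f2 w ∈ X2 ∧ Arc A σ x (f2 w) := by
    intro w hw
    have := hf2.1 w hw
    exact ⟨(Finset.mem_filter.mp this).1, (Finset.mem_filter.mp this).2⟩
  have hf1X : ∀ w ∈ K, w ∉ cut par K C → f1 w ∈ X1 := fun w hw hw2 =>
    hf1.1 w (Finset.mem_sdiff.mpr ⟨hw, hw2⟩)
  refine ⟨fun w => if w ∈ cut par K C then f2 w else f1 w, ⟨?_, ?_, ?_⟩, ?_, ?_⟩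
  · intro w hw
    by_cases hw2 : w ∈ cut par K C
    · simp only [hw2, if_true]
      exact Finset.mem_union_right _ (hf2X w hw2).1
    · simp only [hw2, if_false]
      exact Finset.mem_union_left _ (hf1X w hw hw2)
  · intro u hu w hw huw
    by_cases hu2 : u ∈ cut par K C <;> by_cases hw2 : w ∈ cut par K C <;>
      simp only [hu2, hw2, if_true, if_false] at huw
    · exact hf2.2.1 u hu2 w hw2 huw
    · exfalso
      have h5 := (hf2X u hu2).1
      rw [huw] at h5
      exact Finset.disjoint_left.mp hX (hf1X w hw hw2) h5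
    · exfalso
      have h5 := (hf2X w hw2).1
      rw [← huw] at h5
      exact Finset.disjoint_left.mp hX (hf1X u hu hu2) h5
    · exact hf1.2.1 u (Finset.mem_sdiff.mpr ⟨hu, hu2⟩) w (Finset.mem_sdiff.mpr ⟨hw, hw2⟩) huw
  · intro w hw hwr hpw
    by_cases hw2 : w ∈ cut par K C
    · by_cases hp2 : par w ∈ cut par K C
      · simp only [hw2, hp2, if_true]
        exact hf2.2.2 w hw2 hwr hp2
      · simp only [hw2, hp2, if_true, if_false]
        obtain ⟨e1, e2⟩ := hpar2 w hw2 hp2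
        rw [e1, hf1v, e2]
        exact (hf2X w hw2).2
    · have hp2 := hpar1 w hw hw2
      simp only [hw2, hp2, if_false]
      exact hf1.2.2 w (Finset.mem_sdiff.mpr ⟨hw, hw2⟩) hwr (Finset.mem_sdiff.mpr ⟨hpw, hp2⟩)
  · intro w hw
    simp only [hw, if_true]
    exact (hf2X w hw).1
  · intro w hw hw2
    simp only [hw2, if_false]
    exact hf1X w hw hw2

theorem KSPL (h1 : SUBT_stmt) (h2 : FLX_stmt) (h3 : DSC_stmt) (h4 : DEG_stmt) : KSPL_stmt := by
  intro W V _ _ _ A hA r par dep hR sgn K _ hK v hv σ C hC X1 X2 hX hX1 hX2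
  obtain ⟨e1, -, e3, -, -, -, -, -⟩ := h4 V A hA
  have hsum : ∑ x ∈ X1, (nb A σ X2 x).card + ∑ y ∈ X2, (nb A σ X1 y).card =
      X1.card * X2.card := by
    rw [e3 σ X2 X1, ← Finset.sum_add_distrib]
    have h5 : ∀ x ∈ X1, (nb A σ X2 x).card + (nb A (!σ) X2 x).card = X2.card := by
      intro x hx
      have h6 : x ∉ X2 := Finset.disjoint_left.mp hX hx
      cases σ with
      | true => exact e1 X2 x h6
      | false => rw [add_comm]; exact e1 X2 x h6
    rw [Finset.sum_congr rfl h5, Finset.sum_const, smul_eq_mul]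
  rcases le_total (∑ y ∈ X2, (nb A σ X1 y).card) (∑ x ∈ X1, (nb A σ X2 x).card) with h5 | h5
  · obtain ⟨f, hf, ha, hb⟩ := half h1 h2 h3 hA hR sgn hK hv σ hC hX hX1 hX2 (by omega)
    exact ⟨f, hf, Or.inl ⟨ha, hb⟩⟩
  · obtain ⟨f, hf, ha, hb⟩ := half h1 h2 h3 hA hR sgn hK hv σ hC hX.symm hX2 hX1 (by
      rw [mul_comm]; omega)
    refine ⟨f, ?_, Or.inr ⟨ha, hb⟩⟩
    rw [Finset.union_comm]
    exact hf

end Pool.Agent.Helper77.SU
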