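import Pool.Agent.Helper18.SU.Goals2

/-!
# Oriented trees in tournaments: the root at a vertex with enough out-neighbours
-/

set_option autoImplicit false

namespace Pool.Agent.Helper77.SU

open Pool.Agent.Helper18.SU

theorem iter_mem {W : Type} {par : W → W} {S : Finset W} (hS : ∀ v ∈ S, par v ∈ S) {w : W}
    (hw : w ∈ S) (k : ℕ) : par^[k] w ∈ S := by
  induction k with
  | zero => exact hw
  | succ k ih => rw [Function.iterate_succ_apply']; exact hS _ ih

theorem OPA (h1 : EX2_stmt) (h2 : LF_stmt) (h3 : DSC_stmt) (h4 : DEG_stmt) : OPA_stmt := by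
  intro W V _ _ _ _ A hA r u par dep hR sgn LO LI hB s hs X y hy hchd hin hLI Z hZ hsZ hZd
  classical
  obtain ⟨d1, d2, d3, d4, d5, -, d7⟩ := h3 W r par dep hR
  obtain ⟨e1, -, -, -, -, e6, e7, e8⟩ := h4 V A hA
  obtain ⟨b1, b2, b3, b4, b5⟩ := hB
  have hB' : Brm r u par sgn LO LI := ⟨b1, b2, b3, b4, b5⟩
  -- the part without the leaves
  obtain ⟨S, hSe⟩ : ∃ S : Finset W, S = Finset.univ \ (LO ∪ LI) := ⟨_, rfl⟩
  have hSm : ∀ w, w ∈ S ↔ w ∉ LO ∧ w ∉ LI := by
    intro w; rw [hSe]; simp
  have hdis : Disjoint LO LI := by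
    rw [Finset.disjoint_left]
    intro c hc hc'
    have h5 := (b1 c hc).2.2
    have h6 := (b2 c hc').2.2
    rw [h5] at h6
    exact absurd h6 (by decide)
  have hScard : S.card = s := by
    rw [hSe, Finset.card_sdiff_of_subset (Finset.subset_univ _), Finset.card_univ,
      Finset.card_union_of_disjoint hdis]
    omega
  have hrS : r ∈ S := (hSm r).mpr ⟨fun h => (b1 r h).1 rfl, fun h => (b2 r h).1 rfl⟩
  have huS : u ∈ S := (hSm u).mpr ⟨b4, b5⟩
  have hScl : ∀ v ∈ S, par v ∈ S := by
    intro v hv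
    by_cases h : v = r
    · rw [h, hR.2.1]; exact hrS
    · exact (hSm _).mpr (b3 v h)
  -- the out-children of the root which are not leaves
  have hch : ∀ c, c ∈ chd r par sgn r true ↔ c ≠ r ∧ par c = r ∧ sgn c = true := by
    intro c; simp [chd]
  have hLOch : LO ⊆ chd r par sgn r true := fun c hc => (hch c).mpr (b1 c hc)
  obtain ⟨C, hCe⟩ : ∃ C : Finset W, C = chd r par sgn r true \ LO := ⟨_, rfl⟩
  have hCm : ∀ c, c ∈ C ↔ (c ≠ r ∧ par c = r ∧ sgn c = true) ∧ c ∉ LO := by
    intro c; rw [hCe, Finset.mem_sdiff, hch]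
  have hCcard : C.card + LO.card = (chd r par sgn r true).card := by
    rw [hCe, Finset.card_sdiff_of_subset hLOch]
    have := Finset.card_le_card hLOch
    omega
  have hCS : C ⊆ S := by
    intro c hc
    obtain ⟨⟨-, -, h7⟩, h8⟩ := (hCm c).mp hc
    refine (hSm c).mpr ⟨h8, fun h9 => ?_⟩
    have h10 := (b2 c h9).2.2
    rw [h7] at h10
    exact absurd h10 (by decide)
  have hCZ : C.card ≤ Z.card := by
    have := Finset.card_le_card hCS
    omega
  obtain ⟨e⟩ : Nonempty (↥C ↪ ↥Z) := Function.Embedding.nonempty_of_card_le (by simpa using hCZ)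
  obtain ⟨f₀, hf₀⟩ : ∃ f₀ : W → V, f₀ = fun w => if h : w ∈ C then (e ⟨w, h⟩ : V) else y :=
    ⟨_, rfl⟩
  have hrC : r ∉ C := fun h => ((hCm r).mp h).1.1 rfl
  have hf₀r : f₀ r = y := by rw [hf₀]; exact dif_neg hrC
  have hf₀C : ∀ c ∈ C, f₀ c ∈ Z := by
    intro c hc
    rw [hf₀]
    simp only [hc, dif_pos]
    exact (e ⟨c, hc⟩).2
  have hf₀i : ∀ c ∈ C, ∀ c' ∈ C, f₀ c = f₀ c' → c = c' := by
    intro c hc c' hc' h
    rw [hf₀] at h
    simp only [hc, hc', dif_pos] at h
    have h5 := e.injective (Subtype.ext h)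
    exact congrArg Subtype.val h5
  have hyZ : y ∉ Z := fun h => e8 true X y (hZ h)
  -- the core
  obtain ⟨S₀, hS₀e⟩ : ∃ S₀ : Finset W, S₀ = insert r C := ⟨_, rfl⟩
  have hS₀m : ∀ w, w ∈ S₀ ↔ w = r ∨ w ∈ C := by intro w; rw [hS₀e, Finset.mem_insert]
  have hrS₀ : r ∈ S₀ := (hS₀m r).mpr (Or.inl rfl)
  have hS₀cl : ∀ v ∈ S₀, par v ∈ S₀ := by
    intro v hv
    rcases (hS₀m v).mp hv with h | h
    · rw [h, hR.2.1]; exact hrS₀
    · rw [((hCm v).mp h).1.2.1]; exact hrS₀
  have hS₀S : S₀ ⊆ S := by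
    intro v hv
    rcases (hS₀m v).mp hv with h | h
    · rw [h]; exact hrS
    · exact hCS h
  have hEmb₀ : Emb A r par sgn S₀ Finset.univ f₀ := by
    refine ⟨fun v _ => Finset.mem_univ _, ?_, ?_⟩
    · intro v hv w hw hvw
      rcases (hS₀m v).mp hv with h | h <;> rcases (hS₀m w).mp hw with h' | h'
      · rw [h, h']
      · exfalso
        rw [h, hf₀r] at hvw
        exact hyZ (hvw ▸ hf₀C w h')
      · exfalso
        rw [h', hf₀r] at hvw
        exact hyZ (hvw ▸ hf₀C v h)
      · exact hf₀i v h w h' hvw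
    · intro v hv hvr _
      rcases (hS₀m v).mp hv with h | h
      · exact absurd h hvr
      · obtain ⟨⟨-, h7, h8⟩, -⟩ := (hCm v).mp h
        rw [h7, h8, hf₀r]
        exact (Finset.mem_filter.mp (hZ (hf₀C v h))).2
  -- the places
  obtain ⟨O, hO⟩ : ∃ O : W → Finset V, O = fun c => if par c = r then nb A false X y
      else nb A (sgn c) (nb A false X y) (f₀ (par c)) := ⟨_, rfl⟩
  have hOr : ∀ c, par c = r → O c = nb A false X y := by
    intro c hc; rw [hO]; exact if_pos hc
  have hOn : ∀ c, par c ≠ r → O c = nb A (sgn c) (nb A false X y) (f₀ (par c)) := by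
    intro c hc; rw [hO]; exact if_neg hc
  have hOsub : ∀ c, O c ⊆ nb A false X y := by
    intro c
    by_cases hc : par c = r
    · rw [hOr c hc]
    · rw [hOn c hc]; exact Finset.filter_subset _ _
  have himg : ∀ x ∈ nb A false X y, x ∉ S₀.image f₀ := by
    intro x hx hx'
    obtain ⟨w, hw, rfl⟩ := Finset.mem_image.mp hx'
    rcases (hS₀m w).mp hw with h | h
    · rw [h, hf₀r] at hx
      exact e8 false X y hx
    · exact Finset.disjoint_left.mp (e7 X y) (hZ (hf₀C w h)) hx
  have htop : ∀ c ∈ tops par S₀, c ∉ S₀ ∧ par c ∈ S₀ := by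
    intro c hc
    simpa [tops] using hc
  obtain ⟨f, hf, hf0, hfO⟩ := h1 W V A hA r par dep hR sgn S₀ S hrS₀ hS₀cl hS₀S hScl f₀ hEmb₀ O
    (by
      intro c hc hcS
      obtain ⟨h5, h6⟩ := htop c hc
      by_cases hcr : par c = r
      · rw [hOr c hcr]; omega
      · rw [hOn c hcr]
        have h7 : par c ∈ C := ((hS₀m _).mp h6).resolve_left hcr
        have h8 := hZd _ (hf₀C _ h7)
        cases hsg : sgn c with
        | true => have := h8.1; omega
        | false => have := h8.2; omega)
    (by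
      intro c hc hcS x hx
      obtain ⟨h5, h6⟩ := htop c hc
      refine Finset.mem_sdiff.mpr ⟨?_, himg x (hOsub c hx)⟩
      by_cases hcr : par c = r
      · have h7 : sgn c = false := by
          by_contra h8
          have h9 : sgn c = true := by
            cases hsg : sgn c with
            | true => rfl
            | false => exact absurd hsg h8
          have h10 : c ≠ r := fun h => h5 (h ▸ hrS₀)
          exact h5 ((hS₀m c).mpr (Or.inr ((hCm c).mpr ⟨⟨h10, hcr, h9⟩, ((hSm c).mp hcS).1⟩)))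
        rw [hOr c hcr] at hx
        rw [h7, hcr, hf₀r]
        exact e6 false X Finset.univ y (Finset.subset_univ _) hx
      · rw [hOn c hcr] at hx
        exact e6 (sgn c) _ Finset.univ _ (Finset.subset_univ _) hx)
  -- where the vertices go
  have hwhere : ∀ w ∈ S, w ∉ S₀ → f w ∈ nb A false X y := by
    intro w hw hw0
    obtain ⟨c, hc, hwc⟩ := (d7 S₀ hrS₀ hS₀cl).1 w hw0
    have hcS : c ∈ S := by
      obtain ⟨k, hk⟩ : ∃ k : ℕ, par^[k] w = c := by simpa [dsc] using hwc
      rw [← hk]
      exact iter_mem hScl hw k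
    have hwi : w ∈ dsi par S c := by
      simp [dsi, hwc, hw]
    exact hOsub c (hfO c hc hcS w hwi)
  have hfr : f r = y := by rw [hf0 r hrS₀, hf₀r]
  have hfX : ∀ w ∈ S, f w ∈ X := by
    intro w hw
    by_cases hw0 : w ∈ S₀
    · rcases (hS₀m w).mp hw0 with h | h
      · rw [h, hfr]; exact hy
      · rw [hf0 w hw0]
        exact (Finset.mem_filter.mp (hZ (hf₀C w h))).1
    · exact (Finset.mem_filter.mp (hwhere w hw hw0)).1
  have hP : LO.card ≤ (nb A true Finset.univ (f r) \ S.image f).card := by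
    have h5 : nb A true X y \ C.image f₀ ⊆ nb A true Finset.univ (f r) \ S.image f := by
      intro x hx
      obtain ⟨hx1, hx2⟩ := Finset.mem_sdiff.mp hx
      refine Finset.mem_sdiff.mpr ⟨?_, fun hx3 => ?_⟩
      · rw [hfr]; exact e6 true X Finset.univ y (Finset.subset_univ _) hx1
      · obtain ⟨w, hw, rfl⟩ := Finset.mem_image.mp hx3
        by_cases hw0 : w ∈ S₀
        · rcases (hS₀m w).mp hw0 with h | h
          · rw [h, hfr] at hx1
            exact e8 true X y hx1
          · exact hx2 (Finset.mem_image.mpr ⟨w, h, (hf0 w hw0).symm⟩)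
        · exact Finset.disjoint_left.mp (e7 X y) hx1 (hwhere w hw hw0)
    have h6 := Finset.card_le_card h5
    have h7 : (nb A true X y).card ≤ (nb A true X y \ C.image f₀).card + (C.image f₀).card := by
      have := Finset.le_card_sdiff (C.image f₀) (nb A true X y)
      omega
    have h8 : (C.image f₀).card ≤ C.card := Finset.card_image_le
    omega
  rw [hSe] at hf hP
  rcases hLI with h | h
  · refine h2 W V A r u par dep hR sgn LO LI hB' f hf hP (by rw [h]; simp) ?_
    have h5 := Finset.card_le_card (Finset.subset_union_left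
      (s₁ := nb A true Finset.univ (f r) \ (Finset.univ \ (LO ∪ LI)).image f)
      (s₂ := nb A false Finset.univ (f u) \ (Finset.univ \ (LO ∪ LI)).image f))
    rw [h, Finset.card_empty]
    rw [h] at hP h5
    omega
  · have hQ : LO.card + LI.card ≤
        (nb A false Finset.univ (f u) \ (Finset.univ \ (LO ∪ LI)).image f).card := by
      have h5 := h (f u) (hfX u huS)
      have h6 := Finset.le_card_sdiff ((Finset.univ \ (LO ∪ LI)).image f)
        (nb A false Finset.univ (f u))
      have h7 : ((Finset.univ \ (LO ∪ LI)).image f).card ≤ (Finset.univ \ (LO ∪ LI)).card :=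
        Finset.card_image_le
      rw [hSe] at hScard
      omega
    refine h2 W V A r u par dep hR sgn LO LI hB' f hf hP (by omega) ?_
    have h5 := Finset.card_le_card (Finset.subset_union_right
      (s₁ := nb A true Finset.univ (f r) \ (Finset.univ \ (LO ∪ LI)).image f)
      (s₂ := nb A false Finset.univ (f u) \ (Finset.univ \ (LO ∪ LI)).image f))
    omega

end Pool.Agent.Helper77.SU
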